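import Pool.Agent.Work.MP_c3bd4f_fq.All
import Pool.Agent.Work.MP_c3bd4f_as.All

set_option autoImplicit false

/-!
# Calabi invariant and Hofer diameter of finite quotients

Let `(M, Ω)` be a symplectic manifold of dimension `2 n`, `q : M' → M` a smooth covering map all of whose fibres have
exactly `d ≥ 1` elements and `Ω' = q^* Ω`.  Suppose that `Ω'` is the sum of the pullback `w = f^* σ` by a smooth map
`f : M' → X` to a manifold `X` with a smooth covering map `ℝ^m → X`, where `σ ^ (r + 1)` is exact, and of a form whose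
`j`-th power is exact, where `r + 2 j ≤ n + 1`, or `j = 1`, `r ≤ n` and no connected component of `M'` is compact.  If the
volume of `M` is finite, then the Calabi invariant descends to the group of compactly supported Hamiltonian
symplectomorphisms of `M`, it is bounded by the volume times the Hofer norm, and the Hofer diameter is infinite.
The map `f` is only defined on `M'`.

Proof: Hamiltonian isotopies of `M` with the same time one map lift to Hamiltonian isotopies of `M'` with the same time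
one map, because no component of `M'` is compact, and `q_* vol' = d vol`; this reduces the claim for `M` to the one for
`M'`, which is `AsphericalDiameter`.

The definitions are in `Pool/Agent/Work/MP_c3bd4f_hd/DefsS.lean` and `Pool/Agent/Work/MP_c3bd4f_as/DefsT.lean`.
-/

namespace Pool.Agent.Results.MP_c3bd4f_gt.FiniteQuotients

open scoped ContDiff Manifold
open Set MeasureTheory HDS

theorem result (n m r j d : ℕ) (hn : 1 ≤ n) (hj : 1 ≤ j) (hd : 1 ≤ d) (M M' X : Type)
    [TopologicalSpace M] [T2Space M] [SecondCountableTopology M] [Nonempty M]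
    [ChartedSpace (EuclideanSpace ℝ (Fin (2 * n))) M]
    [IsManifold 𝓘(ℝ, EuclideanSpace ℝ (Fin (2 * n))) ∞ M] [MeasurableSpace M] [BorelSpace M]
    [TopologicalSpace M'] [T2Space M'] [SecondCountableTopology M'] [Nonempty M']
    [ChartedSpace (EuclideanSpace ℝ (Fin (2 * n))) M']
    [IsManifold 𝓘(ℝ, EuclideanSpace ℝ (Fin (2 * n))) ∞ M'] [MeasurableSpace M'] [BorelSpace M']
    [TopologicalSpace X] [T2Space X] [ChartedSpace (EuclideanSpace ℝ (Fin m)) X]
    [IsManifold 𝓘(ℝ, EuclideanSpace ℝ (Fin m)) ∞ X]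
    (hr : r + 2 * j ≤ n + 1 ∨ j = 1 ∧ r ≤ n ∧ ∀ x : M', ¬IsCompact (connectedComponent x))
    (Ω : Fam (2 * n) M) (hΩ : IsSymplectic n Ω)
    (q : M' → M) (hq : IsCoveringMap q)
    (hqd : IsLocalDiffeomorph 𝓘(ℝ, EuclideanSpace ℝ (Fin (2 * n))) 𝓘(ℝ, EuclideanSpace ℝ (Fin (2 * n))) ∞ q)
    (hqc : ∀ x, (q ⁻¹' {x}).ncard = d)
    (Ω' w μ : Fam (2 * n) M') (hΩ' : IsSymplectic n Ω') (hpb : IsPull q Ω Ω')
    (hμ : IsForm (2 * j - 1) μ) (hdμ : IsD ((Ω' - w) ^ j) μ) (σ η : Fam m X) (hσ : IsForm 2 σ)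
    (hdσ : IsD 0 σ) (hη : IsForm (2 * r + 1) η) (hdη : IsD (σ ^ (r + 1)) η) (f : M' → X)
    (hf : ContMDiff 𝓘(ℝ, EuclideanSpace ℝ (Fin (2 * n))) 𝓘(ℝ, EuclideanSpace ℝ (Fin m)) ∞ f)
    (hfw : IsPull f σ w) (p : EuclideanSpace ℝ (Fin m) → X) (hp : IsCoveringMap p)
    (hps : Function.Surjective p)
    (hpd : IsLocalDiffeomorph 𝓘(ℝ, EuclideanSpace ℝ (Fin m)) 𝓘(ℝ, EuclideanSpace ℝ (Fin m)) ∞ p) :
    CalabiHofer n Ω := by
  refine HDK.transfer n d M M' Ω Ω' hΩ hΩ' q hq hqd hd hqc hpb ?_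
  refine HDB.calabiHofer_of n M' Ω' hΩ' fun vol h1 hfin => ?_
  refine HDP.q_GFX n m r j M' X p f σ η Ω' w μ vol hn hj hr (HDB.symp_of hΩ') h1 hfin hp hps hpd hf
    (HDB.form_of hσ) (fun c hc x hx => (HDB.D_form hσ hc hx).symm.trans (hdσ c hc x hx).symm)
    (HDB.form_of hη) (fun c hc x hx => (HDB.D_form hη hc hx).symm.trans (hdη c hc x hx).symm)
    (fun c hc x hx => hfw c hc (chartAt _ (f (c.symm x))) (chart_mem_atlas _ _) x hx
      (mem_chart_source _ _))
    (HDB.form_of hμ)
    (fun c hc x hx => (HDB.D_form hμ hc hx).symm.trans (hdμ c hc x hx).symm)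

end Pool.Agent.Results.MP_c3bd4f_gt.FiniteQuotients
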