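import Pool.Agent.Work.MP_c3bd4f_hd.Bridge
import Pool.Agent.Work.MP_c3bd4f_he.All

set_option autoImplicit false

/-!
# Infinite Hofer diameter when the symplectic form is a sum of few products of closed one-forms and a form
with an exact power

Let `(M, Ω)` be a symplectic manifold of dimension `2 n` of finite volume, `α_i`, `β_i` (`i ≤ r`) closed
`1`-forms and `ρ = Ω - ∑ α_i ∧ β_i`, `ρ ^ j = d μ`.  Suppose that `r + 2 j ≤ n + 1`, or that `j = 1`,
`r ≤ n` and no connected component of `M` is compact.  Then the Calabi invariant descends to the group of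
compactly supported Hamiltonian symplectomorphisms, it is bounded by the volume times the Hofer norm,
and the Hofer diameter is infinite.  (`r = 0`, `j = 1` is the classical exact case.)

Proof: compare the pullbacks to `[0, 1] × M` by two isotopies with the same time one map; replace one
`1`-form at a time.

The definitions are in `Pool/Agent/Work/MP_c3bd4f_hd/DefsS.lean`.
-/

namespace Pool.Agent.Results.MP_c3bd4f_gt.ProductExactDiameter

open scoped ContDiff Manifold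
open Set MeasureTheory HDS

theorem result (n r j : ℕ) (hn : 1 ≤ n) (hj : 1 ≤ j) (M : Type) [TopologicalSpace M]
    [T2Space M] [SecondCountableTopology M] [Nonempty M]
    [ChartedSpace (EuclideanSpace ℝ (Fin (2 * n))) M]
    [IsManifold 𝓘(ℝ, EuclideanSpace ℝ (Fin (2 * n))) ∞ M] [MeasurableSpace M] [BorelSpace M]
    (hr : r + 2 * j ≤ n + 1 ∨ j = 1 ∧ r ≤ n ∧ ∀ p : M, ¬IsCompact (connectedComponent p))
    (Ω μ : Fam (2 * n) M) (α β : Fin r → Fam (2 * n) M) (hΩ : IsSymplectic n Ω)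
    (hα : ∀ i, IsForm 1 (α i) ∧ IsD 0 (α i)) (hβ : ∀ i, IsForm 1 (β i) ∧ IsD 0 (β i))
    (hμ : IsForm (2 * j - 1) μ) (hd : IsD ((Ω - ∑ i, α i * β i) ^ j) μ) :
    ∃ vol : Measure M, (IsVol n Ω vol ∧ ∀ vol' : Measure M, IsVol n Ω vol' → vol' = vol) ∧
      (vol univ < ⊤ →
        (∀ (H H' : ℝ → M → ℝ) (φ : M → M), IsHam (2 * n) H → IsHam (2 * n) H' →
          Generates Ω H φ → Generates Ω H' φ → Cal vol H = Cal vol H') ∧
        (∀ (H : ℝ → M → ℝ) (φ : M → M), IsHam (2 * n) H → Generates Ω H φ →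
          |Cal vol H| ≤ (vol univ).toReal * hofer Ω φ) ∧
        ∀ C : ℝ, ∃ φ ∈ Ham Ω, C ≤ hofer Ω φ) := by
  obtain ⟨vol, h1, h2⟩ := HDC.q_EXV n M Ω (HDB.symp_of hΩ)
  refine ⟨vol, ⟨h1, h2⟩, fun hfin => ?_⟩
  have hcl : ∀ γ : Fam (2 * n) M, IsForm 1 γ → IsD 0 γ → HDC.EqF (HDC.dF (N := 2 * n) γ) 0 :=
    fun γ hγ hγ' c hc x hx => (HDB.D_form hγ hc hx).symm.trans (hγ' c hc x hx).symm
  have hd' : HDC.EqF (HDC.dF (N := 2 * n) μ) ((Ω - ∑ i, α i * β i) ^ j) := fun c hc x hx =>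
    (HDB.D_form hμ hc hx).symm.trans (hd c hc x hx).symm
  obtain ⟨g1, g2, g3⟩ := HDE.q_FNE n r j M Ω μ α β vol hn hj hr (HDB.symp_of hΩ) h1 hfin
    (fun i => ⟨HDB.form_of (hα i).1, hcl _ (hα i).1 (hα i).2, HDB.form_of (hβ i).1,
      hcl _ (hβ i).1 (hβ i).2⟩) (HDB.form_of hμ) hd'
  refine ⟨fun H H' φ hH hH' hg hg' => ?_, fun H φ hH hg => ?_, fun C => ?_⟩
  · exact g1 H H' φ ((HDB.ham_iff H).1 hH) ((HDB.ham_iff H').1 hH')
      ((HDB.gen_iff hΩ.form H φ).1 hg) ((HDB.gen_iff hΩ.form H' φ).1 hg')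
  · rw [HDB.hofer_eq hΩ.form φ]
    exact g2 H φ ((HDB.ham_iff H).1 hH) ((HDB.gen_iff hΩ.form H φ).1 hg)
  · obtain ⟨φ, hφ, hC⟩ := g3 C
    refine ⟨φ, ?_, ?_⟩
    · rw [HDB.Ham_eq hΩ.form]
      exact hφ
    · rw [HDB.hofer_eq hΩ.form φ]
      exact hC

end Pool.Agent.Results.MP_c3bd4f_gt.ProductExactDiameter
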